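import Pool.Agent.W523.LV.Stmts

/-!
# Steering in a window
-/

set_option autoImplicit false

open Finset

namespace Pool.Agent.W762.LV

open Pool.Agent.H96R3.BC (vv UU CC mem_CC CC_unique)
open Pool.Agent.H394R3.ET (AS)
open Pool.Agent.W523.LV

/-! ### Glueing the cells -/

theorem sum_step (Q : ℕ) (F : ℕ → ℝ) (j : ℕ) :
    ∑ n ∈ Icc 1 ((j + 1) ^ (2 * Q)), F n = ∑ n ∈ Icc 1 (j ^ (2 * Q)), F n + ∑ n ∈ CC Q j, F n := by
  have h : j ^ (2 * Q) ≤ (j + 1) ^ (2 * Q) := Nat.pow_le_pow_left (Nat.le_succ j) _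
  have e : ∀ b : ℕ, Icc 1 b = Ioc 0 b := fun b => by
    ext n
    simp only [mem_Icc, mem_Ioc]
    omega
  rw [e, e, CC, sum_Ioc_consecutive F (Nat.zero_le _) h]

theorem glueS (Q : ℕ) (hQ : 1 ≤ Q) (j₀ : ℕ) (S : ℕ → ℕ → ℝ) (E : ℕ → ℝ) (hE0 : E 0 = 0)
    (_hS : ∀ J n, S J n ≠ 0 → n ∈ CC Q J)
    (htot : ∀ J, ∑ n ∈ CC Q J, S J n = E (J + 1) - E J)
    (hmom : ∀ J, ∀ P : Polynomial ℝ, P.natDegree < 4 * Q + 4 →
      ∑ p ∈ CC Q J, S J p * (vv Q j₀ p) ^ 2 * P.eval (vv Q j₀ p) =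
      E (J + 1) * (UU j₀ (J + 1)) ^ 2 * P.eval (UU j₀ (J + 1)) -
        E J * (UU j₀ J) ^ 2 * P.eval (UU j₀ J)) :
    ∃ s : ℕ → ℝ, (∀ J, ∀ n ∈ CC Q J, s n = S J n) ∧
      (∀ n, s n = 0 ∨ ∃ J, n ∈ CC Q J ∧ s n = S J n) ∧
      (∀ j, BB Q j₀ s j = E j * (UU j₀ j) ^ 2) ∧
      (∀ j : ℕ, ∀ P : Polynomial ℝ, P.natDegree < 4 * Q + 4 →
        ∑ p ∈ CC Q j, s p * (vv Q j₀ p) ^ 2 * P.eval (vv Q j₀ p) + BB Q j₀ s j * P.eval (UU j₀ j) =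
        BB Q j₀ s (j + 1) * P.eval (UU j₀ (j + 1))) ∧
      (∀ (J : ℕ) (x : ℝ), (J : ℝ) ^ (2 * Q) ≤ x → x < ((J : ℝ) + 1) ^ (2 * Q) →
        AS s x = E J + ∑ n ∈ (CC Q J).filter (fun n : ℕ => (n : ℝ) ≤ x), S J n) := by
  classical
  let s : ℕ → ℝ := fun n => if h : ∃ J, n ∈ CC Q J then S h.choose n else 0
  have h1 : ∀ J, ∀ n ∈ CC Q J, s n = S J n := by
    intro J n hn
    have h : ∃ J, n ∈ CC Q J := ⟨J, hn⟩
    have h2 : h.choose = J := CC_unique h.choose_spec hn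
    show (if h : ∃ J, n ∈ CC Q J then S h.choose n else 0) = _
    rw [dif_pos h, h2]
  have h2 : ∀ n, s n = 0 ∨ ∃ J, n ∈ CC Q J ∧ s n = S J n := by
    intro n
    by_cases h : ∃ J, n ∈ CC Q J
    · obtain ⟨J, hJ⟩ := h
      exact Or.inr ⟨J, hJ, h1 J n hJ⟩
    · left
      show (if h : ∃ J, n ∈ CC Q J then S h.choose n else 0) = _
      rw [dif_neg h]
  have h3 : ∀ j, BB Q j₀ s j = E j * (UU j₀ j) ^ 2 := by
    intro j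
    induction j with
    | zero =>
      unfold BB
      have : (0 : ℕ) ^ (2 * Q) = 0 := by
        apply Nat.zero_pow
        omega
      rw [this, hE0]
      simp
    | succ j ih =>
      have h4 : BB Q j₀ s (j + 1) = BB Q j₀ s j + ∑ n ∈ CC Q j, s n * (vv Q j₀ n) ^ 2 :=
        sum_step Q _ j
      have h5 := hmom j 1 (by simp)
      simp only [Polynomial.eval_one, mul_one] at h5
      have h6 : ∑ n ∈ CC Q j, s n * (vv Q j₀ n) ^ 2 = ∑ n ∈ CC Q j, S j n * (vv Q j₀ n) ^ 2 :=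
        sum_congr rfl (fun n hn => by rw [h1 j n hn])
      rw [h4, h6, h5, ih]
      ring
  have h4 : ∀ j, ∑ n ∈ Icc 1 (j ^ (2 * Q)), s n = E j := by
    intro j
    induction j with
    | zero =>
      have : (0 : ℕ) ^ (2 * Q) = 0 := by
        apply Nat.zero_pow
        omega
      rw [this, hE0]
      simp
    | succ j ih =>
      rw [sum_step Q _ j, ih, sum_congr rfl (fun n hn => h1 j n hn), htot j]
      ring
  refine ⟨s, h1, h2, h3, ?_, ?_⟩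
  · intro j P hP
    have h5 : ∑ p ∈ CC Q j, s p * (vv Q j₀ p) ^ 2 * P.eval (vv Q j₀ p) =
        ∑ p ∈ CC Q j, S j p * (vv Q j₀ p) ^ 2 * P.eval (vv Q j₀ p) :=
      sum_congr rfl (fun n hn => by rw [h1 j n hn])
    rw [h5, hmom j P hP, h3, h3]
    ring
  · intro J x hx1 hx2
    have hx0 : 0 ≤ x := le_trans (by positivity) hx1
    have f1 : J ^ (2 * Q) ≤ ⌊x⌋₊ := by
      apply Nat.le_floor
      push_cast
      exact hx1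
    have f2 : ⌊x⌋₊ ≤ (J + 1) ^ (2 * Q) := by
      have : ⌊x⌋₊ < (J + 1) ^ (2 * Q) := by
        rw [Nat.floor_lt hx0]
        push_cast
        exact hx2
      exact this.le
    have e : ∀ b : ℕ, Icc 1 b = Ioc 0 b := fun b => by
      ext n
      simp only [mem_Icc, mem_Ioc]
      omega
    have f3 : (CC Q J).filter (fun n : ℕ => (n : ℝ) ≤ x) = Ioc (J ^ (2 * Q)) ⌊x⌋₊ := by
      ext n
      rw [mem_filter, mem_CC, mem_Ioc, Nat.le_floor_iff hx0]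
      constructor
      · rintro ⟨⟨a, _⟩, c⟩
        exact ⟨a, c⟩
      · rintro ⟨a, c⟩
        have : n ≤ ⌊x⌋₊ := Nat.le_floor c
        exact ⟨⟨a, this.trans f2⟩, c⟩
    have f4 : ∑ n ∈ (CC Q J).filter (fun n : ℕ => (n : ℝ) ≤ x), S J n =
        ∑ n ∈ (CC Q J).filter (fun n : ℕ => (n : ℝ) ≤ x), s n :=
      sum_congr rfl (fun n hn => (h1 J n (mem_filter.1 hn).1).symm)
    show ∑ n ∈ Icc 1 ⌊x⌋₊, s n = _
    rw [f4, f3, ← h4 J, e, e, sum_Ioc_consecutive _ (Nat.zero_le _) f1]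

/-! ### Elementary estimates -/

theorem pow_lower (R m : ℕ) : R ^ (m + 1) + (m + 1) * R ^ m ≤ (R + 1) ^ (m + 1) := by
  induction m with
  | zero => simp
  | succ m ih =>
    have : (R + 1) * (R ^ (m + 1) + (m + 1) * R ^ m) ≤ (R + 1) * (R + 1) ^ (m + 1) :=
      Nat.mul_le_mul_left _ ih
    have e1 : (R + 1) ^ (m + 1 + 1) = (R + 1) * (R + 1) ^ (m + 1) := by ring
    have e2 : (R + 1) * (R ^ (m + 1) + (m + 1) * R ^ m) =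
        R ^ (m + 1 + 1) + (m + 1 + 1) * R ^ (m + 1) + (m + 1) * R ^ m := by ring
    rw [e1]
    omega

theorem pow_upper (R m : ℕ) : (R + 1) ^ (m + 1) ≤ R ^ (m + 1) + (m + 1) * (R + 1) ^ m := by
  induction m with
  | zero => simp
  | succ m ih =>
    have h1 : (R + 1) * (R + 1) ^ (m + 1) ≤ (R + 1) * (R ^ (m + 1) + (m + 1) * (R + 1) ^ m) :=
      Nat.mul_le_mul_left _ ih
    have h2 : R ^ (m + 1) ≤ (R + 1) ^ (m + 1) := Nat.pow_le_pow_left (Nat.le_succ R) _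
    have e1 : (R + 1) ^ (m + 1 + 1) = (R + 1) * (R + 1) ^ (m + 1) := by ring
    have e2 : (R + 1) * (R ^ (m + 1) + (m + 1) * (R + 1) ^ m) =
        R ^ (m + 1 + 1) + R ^ (m + 1) + (m + 1) * (R + 1) ^ (m + 1) := by ring
    have e3 : R ^ (m + 1 + 1) + (m + 1 + 1) * (R + 1) ^ (m + 1) =
        R ^ (m + 1 + 1) + (R + 1) ^ (m + 1) + (m + 1) * (R + 1) ^ (m + 1) := by ring
    rw [e1, e3]
    omega

theorem card_CC (Q j : ℕ) : (CC Q j).card + j ^ (2 * Q) = (j + 1) ^ (2 * Q) := by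
  unfold CC
  rw [Nat.card_Ioc]
  have h : j ^ (2 * Q) ≤ (j + 1) ^ (2 * Q) := Nat.pow_le_pow_left (Nat.le_succ j) _
  omega

theorem card_lower (Q R : ℕ) (hQ : 1 ≤ Q) : 2 * (R : ℝ) ^ (2 * Q - 1) ≤ ((CC Q R).card : ℝ) := by
  have h1 := card_CC Q R
  have h2 := pow_lower R (2 * Q - 1)
  have e : 2 * Q - 1 + 1 = 2 * Q := by omega
  rw [e] at h2
  have h3 : 2 * R ^ (2 * Q - 1) ≤ 2 * Q * R ^ (2 * Q - 1) := Nat.mul_le_mul_right _ (by omega)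
  have h4 : 2 * R ^ (2 * Q - 1) ≤ (CC Q R).card := by
    omega
  exact_mod_cast h4

theorem card_upper (Q R : ℕ) (hQ : 1 ≤ Q) (hR : 1 ≤ R) :
    ((CC Q R).card : ℝ) ≤ (2 * Q * 2 ^ (2 * Q - 1) : ℝ) * (R : ℝ) ^ (2 * Q - 1) := by
  have h1 := card_CC Q R
  have h2 := pow_upper R (2 * Q - 1)
  have e : 2 * Q - 1 + 1 = 2 * Q := by omega
  rw [e] at h2
  have h3 : (R + 1) ^ (2 * Q - 1) ≤ (2 * R) ^ (2 * Q - 1) := Nat.pow_le_pow_left (by omega) _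
  have h4 : 2 * Q * (R + 1) ^ (2 * Q - 1) ≤ 2 * Q * (2 * R) ^ (2 * Q - 1) :=
    Nat.mul_le_mul_left _ h3
  have h5 : (CC Q R).card ≤ 2 * Q * (2 * R) ^ (2 * Q - 1) := by omega
  have h6 : ((CC Q R).card : ℝ) ≤ ((2 * Q * (2 * R) ^ (2 * Q - 1) : ℕ) : ℝ) := by exact_mod_cast h5
  refine h6.trans (le_of_eq ?_)
  push_cast
  rw [mul_pow]
  ring

theorem factA (Q : ℕ) : ∃ R₁ : ℕ, ∀ R : ℕ, R₁ ≤ R → 3 * (R + 2) ^ (2 * Q) ≤ 4 * R ^ (2 * Q) := by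
  have h1 : Filter.Tendsto (fun R : ℕ => (1 + 2 / (R : ℝ)) ^ (2 * Q)) Filter.atTop
      (nhds ((1 + 0) ^ (2 * Q))) :=
    ((tendsto_const_div_atTop_nhds_zero_nat 2).const_add 1).pow _
  rw [add_zero, one_pow] at h1
  have h2 := h1.eventually (gt_mem_nhds (show (1 : ℝ) < 4 / 3 by norm_num))
  obtain ⟨R₁, hR₁⟩ := Filter.eventually_atTop.1 h2
  refine ⟨R₁ + 1, fun R hR => ?_⟩
  have h3 := hR₁ R (by omega)
  have hR0 : (0 : ℝ) < R := by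
    have : 0 < R := by omega
    exact_mod_cast this
  have h4 : ((R : ℝ) + 2) ^ (2 * Q) = (R : ℝ) ^ (2 * Q) * (1 + 2 / (R : ℝ)) ^ (2 * Q) := by
    rw [← mul_pow]
    congr 1
    field_simp
  have h5 : 3 * ((R : ℝ) + 2) ^ (2 * Q) ≤ 4 * (R : ℝ) ^ (2 * Q) := by
    rw [h4]
    have h6 : (0 : ℝ) < (R : ℝ) ^ (2 * Q) := by positivity
    nlinarith
  exact_mod_cast h5

theorem factB (Q : ℕ) (hQ : 1 ≤ Q) (δ₁ δ K : ℝ) (h : δ₁ < δ) :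
    ∃ R₂ : ℕ, ∀ R : ℕ, R₂ ≤ R →
      K * ((R : ℝ) ^ (2 * Q)) ^ (-δ) ≤ ((R : ℝ) ^ (2 * Q)) ^ (-δ₁) := by
  have h1 : Filter.Tendsto (fun R : ℕ => ((R : ℝ) ^ (2 * Q)) ^ (-(δ - δ₁))) Filter.atTop
      (nhds 0) :=
    (tendsto_rpow_neg_atTop (sub_pos.2 h)).comp
      ((Filter.tendsto_pow_atTop (by omega)).comp tendsto_natCast_atTop_atTop)
  have h2 := (h1.const_mul K).eventually (gt_mem_nhds (show K * 0 < 1 by simp))
  obtain ⟨R₂, hR₂⟩ := Filter.eventually_atTop.1 h2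
  refine ⟨R₂ + 1, fun R hR => ?_⟩
  have h3 := hR₂ R (by omega)
  have hX : (0 : ℝ) < (R : ℝ) ^ (2 * Q) := by
    have : 0 < R := by omega
    positivity
  have h4 : ((R : ℝ) ^ (2 * Q)) ^ (-δ) =
      ((R : ℝ) ^ (2 * Q)) ^ (-(δ - δ₁)) * ((R : ℝ) ^ (2 * Q)) ^ (-δ₁) := by
    rw [← Real.rpow_add hX]
    congr 1
    ring
  rw [h4, ← mul_assoc]
  have h5 : 0 < ((R : ℝ) ^ (2 * Q)) ^ (-δ₁) := Real.rpow_pos_of_pos hX _
  nlinarith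

theorem exists_cell (Q : ℕ) (hQ : 1 ≤ Q) (x : ℝ) (hx : 0 ≤ x) :
    ∃ J : ℕ, (J : ℝ) ^ (2 * Q) ≤ x ∧ x < ((J : ℝ) + 1) ^ (2 * Q) := by
  classical
  have h1 : ∃ k : ℕ, x < ((k : ℝ) + 1) ^ (2 * Q) := by
    obtain ⟨k, hk⟩ := exists_nat_gt x
    refine ⟨k, ?_⟩
    have h2 : (k : ℝ) + 1 ≤ ((k : ℝ) + 1) ^ (2 * Q) := by
      apply le_self_pow₀
      · have : (0 : ℝ) ≤ k := Nat.cast_nonneg k
        linarith
      · omega
    linarith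
  refine ⟨Nat.find h1, ?_, Nat.find_spec h1⟩
  rcases Nat.eq_zero_or_pos (Nat.find h1) with h2 | h2
  · rw [h2]
    have : ((0 : ℕ) : ℝ) ^ (2 * Q) = 0 := by
      rw [Nat.cast_zero, zero_pow]
      omega
    rw [this]
    exact hx
  · have h3 := Nat.find_min h1 (show Nat.find h1 - 1 < Nat.find h1 by omega)
    rw [not_lt] at h3
    have h4 : ((Nat.find h1 - 1 : ℕ) : ℝ) + 1 = (Nat.find h1 : ℝ) := by
      rw [Nat.cast_sub (by omega)]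
      push_cast
      ring
    rw [h4] at h3
    exact h3

theorem exists_last (Q R : ℕ) (hQ : 1 ≤ Q) (h : (R + 2) ^ (2 * Q) ≤ 2 * R ^ (2 * Q)) :
    ∃ J1 : ℕ, R + 1 ≤ J1 ∧ (J1 + 1) ^ (2 * Q) ≤ 2 * R ^ (2 * Q) ∧
      2 * R ^ (2 * Q) < (J1 + 2) ^ (2 * Q) := by
  classical
  have h1 : ∃ k : ℕ, 2 * R ^ (2 * Q) < (k + 2) ^ (2 * Q) := by
    refine ⟨2 * R ^ (2 * Q), ?_⟩
    have h2 : 2 * R ^ (2 * Q) + 2 ≤ (2 * R ^ (2 * Q) + 2) ^ (2 * Q) := by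
      apply Nat.le_self_pow
      omega
    omega
  refine ⟨Nat.find h1, ?_, ?_, Nat.find_spec h1⟩
  · by_contra hc
    push Not at hc
    have h2 := Nat.find_spec h1
    have h3 : (Nat.find h1 + 2) ^ (2 * Q) ≤ (R + 2) ^ (2 * Q) := Nat.pow_le_pow_left (by omega) _
    omega
  · have h4 : 0 < Nat.find h1 := by
      by_contra hc
      have h5 : Nat.find h1 = 0 := by omega
      have h2 := Nat.find_spec h1
      rw [h5] at h2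
      have h3 : (0 + 2) ^ (2 * Q) ≤ (R + 2) ^ (2 * Q) := Nat.pow_le_pow_left (by omega) _
      omega
    have h3 := Nat.find_min h1 (show Nat.find h1 - 1 < Nat.find h1 by omega)
    rw [not_lt] at h3
    have h5 : Nat.find h1 - 1 + 2 = Nat.find h1 + 1 := by omega
    rw [h5] at h3
    exact h3

theorem taskSteer (h1 : TaskMain) (h2 : TaskRamp) : TaskSteer := by
  classical
  obtain ⟨Qm, hM⟩ := h1
  obtain ⟨Qr, hRp⟩ := h2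
  refine ⟨max (max Qm Qr) 1, ?_⟩
  intro Q hQ0 δ₁ δ r hδ₁ hδ hδr hr j₀ hj₀
  have hQm : Qm ≤ Q := ((le_max_left _ _).trans (le_max_left _ _)).trans hQ0
  have hQr : Qr ≤ Q := ((le_max_right _ _).trans (le_max_left _ _)).trans hQ0
  have hQ : 1 ≤ Q := (le_max_right _ _).trans hQ0
  obtain ⟨N, hN, hM⟩ := hM Q hQm
  obtain ⟨Ra, hMa⟩ := hM δ₁ δ r hδ₁ hδ hδr hr
  obtain ⟨Rb, hRb⟩ := hRp Q hQr δ₁ δ hδ₁ hδ
  obtain ⟨Rc, hRc⟩ := factA Q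
  obtain ⟨Rd, hRd⟩ := factB Q hQ δ₁ δ (2 * Q * 2 ^ (2 * Q - 1) : ℝ) hδ
  refine ⟨Ra + Rb + Rc + Rd + j₀, ?_⟩
  intro R hR
  have hR1 : 1 ≤ R := by omega
  have hA := hRc R (by omega)
  have hA2 : (R + 2) ^ (2 * Q) ≤ 2 * R ^ (2 * Q) := by omega
  obtain ⟨J1, hJ1, hJ2, hJ3⟩ := exists_last Q R hQ hA2
  have hJ4 := hRc J1 (by omega)
  have hXpos : (0 : ℝ) < (R : ℝ) ^ (2 * Q) := by
    have : (0 : ℝ) < R := by exact_mod_cast hR1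
    positivity
  have hX1 : (1 : ℝ) ≤ (R : ℝ) ^ (2 * Q) := one_le_pow₀ (by exact_mod_cast hR1)
  -- cells
  have hm : ∀ J : ℕ, ∃ (nr : Set ℝ) (ω : ℝ → ℝ), (∀ x, ω x = 1 ∨ ω x = -1) ∧
      (R ≤ J → (J + 1) ^ (2 * Q) ≤ 2 * R ^ (2 * Q) → ∀ j₀ : ℕ, 1 ≤ j₀ → j₀ ≤ R → ∀ c : ℕ → ℝ,
  (∀ n ∈ CC Q J, |c n| ≤ ((R : ℝ) ^ (2 * Q)) ^ (-r)) →
  (∀ x : ℝ, (J : ℝ) ^ (2 * Q) ≤ x → x ≤ ((J : ℝ) + 1) ^ (2 * Q) →
    |AS c x| ≤ (R : ℝ) ^ (2 * Q - 1) * ((R : ℝ) ^ (2 * Q)) ^ (-r)) →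
  ∃ s : ℕ → ℝ, (∀ n, s n ≠ 0 → n.Prime ∧ n ∈ CC Q J) ∧ (∀ n, |s n| ≤ ((R : ℝ) ^ (2 * Q)) ^ (-δ₁)) ∧
    ∑ n ∈ CC Q J, s n = (Amp Q N R δ - AS c (((J + 1) ^ (2 * Q) : ℕ) : ℝ)) - (Amp Q N R δ - AS c ((J ^ (2 * Q) : ℕ) : ℝ)) ∧
    (∀ P : Polynomial ℝ, P.natDegree < 4 * Q + 4 → ∑ p ∈ CC Q J, s p * (vv Q j₀ p) ^ 2 * P.eval (vv Q j₀ p) =
      (Amp Q N R δ - AS c (((J + 1) ^ (2 * Q) : ℕ) : ℝ)) * (UU j₀ (J + 1)) ^ 2 * P.eval (UU j₀ (J + 1)) -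
        (Amp Q N R δ - AS c ((J ^ (2 * Q) : ℕ) : ℝ)) * (UU j₀ J) ^ 2 * P.eval (UU j₀ J)) ∧
    ∀ x : ℝ, (J : ℝ) ^ (2 * Q) ≤ x → x ≤ ((J : ℝ) + 1) ^ (2 * Q) →
      (x ∈ nr → |AS c x + (Amp Q N R δ - AS c ((J ^ (2 * Q) : ℕ) : ℝ)) +
          ∑ n ∈ (CC Q J).filter (fun n : ℕ => (n : ℝ) ≤ x), s n| ≤ ((R : ℝ) ^ (2 * Q)) ^ (46 / 100 : ℝ)) ∧
      (x ∉ nr → ((R : ℝ) ^ (2 * Q)) ^ (3 / 10 : ℝ) ≤ ω x * (AS c x + (Amp Q N R δ - AS c ((J ^ (2 * Q) : ℕ) : ℝ)) +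
          ∑ n ∈ (CC Q J).filter (fun n : ℕ => (n : ℝ) ≤ x), s n))) := by
    intro J
    by_cases hJ : R ≤ J ∧ (J + 1) ^ (2 * Q) ≤ 2 * R ^ (2 * Q)
    · obtain ⟨nr, ω, a1, a2⟩ := hMa R (by omega) J hJ.1 hJ.2
      exact ⟨nr, ω, a1, fun _ _ => a2⟩
    · exact ⟨∅, fun _ => 1, fun _ => Or.inl rfl, fun b1 b2 => absurd ⟨b1, b2⟩ hJ⟩
  choose nrJ ωJ hω hmain using hm
  obtain ⟨JJ, hJJ⟩ : ∃ JJ : ℝ → ℕ, ∀ x, 0 ≤ x → (JJ x : ℝ) ^ (2 * Q) ≤ x ∧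
      x < ((JJ x : ℝ) + 1) ^ (2 * Q) := by
    have : ∀ x : ℝ, ∃ J : ℕ, 0 ≤ x → (J : ℝ) ^ (2 * Q) ≤ x ∧ x < ((J : ℝ) + 1) ^ (2 * Q) := by
      intro x
      by_cases hx : 0 ≤ x
      · obtain ⟨J, hJ⟩ := exists_cell Q hQ x hx
        exact ⟨J, fun _ => hJ⟩
      · exact ⟨0, fun h => absurd h hx⟩
    choose JJ hJJ using this
    exact ⟨JJ, hJJ⟩
  refine ⟨{x | x ∈ nrJ (JJ x)}, fun x => ωJ (JJ x) x, fun x => hω _ _, ?_⟩
  intro c hc1 hc2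
  -- end values
  have hdelta : ((R : ℝ) ^ (2 * Q)) ^ (-r) ≤ ((R : ℝ) ^ (2 * Q)) ^ (-δ) :=
    Real.rpow_le_rpow_of_exponent_le hX1 (by linarith)
  have hcl := card_lower Q R hQ
  have hcu := card_upper Q R hQ hR1
  have hbd1 : ∀ y : ℝ, (R : ℝ) ^ (2 * Q) ≤ y → y ≤ 2 * (R : ℝ) ^ (2 * Q) →
      |Amp Q N R δ - AS c y| ≤ ((CC Q R).card : ℝ) * ((R : ℝ) ^ (2 * Q)) ^ (-δ) := by
    intro y hy1 hy2
    have k1 := hc2 y hy1 hy2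
    have k2 : |Amp Q N R δ| ≤ ((CC Q R).card : ℝ) * ((R : ℝ) ^ (2 * Q)) ^ (-δ) / 16 := by
      unfold Amp
      have hN' : (1 : ℝ) ≤ N := by exact_mod_cast hN
      have k3 : (0 : ℝ) ≤ ((CC Q R).card : ℝ) := Nat.cast_nonneg _
      have k4 : 0 ≤ ((R : ℝ) ^ (2 * Q)) ^ (-δ) := Real.rpow_nonneg hXpos.le _
      rw [abs_of_nonneg (by positivity)]
      have k5 : ((CC Q R).card : ℝ) / (16 * N) ≤ ((CC Q R).card : ℝ) / 16 := by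
        apply div_le_div_of_nonneg_left k3 (by norm_num)
        linarith
      calc ((R : ℝ) ^ (2 * Q)) ^ (-δ) * (((CC Q R).card : ℝ) / (16 * N))
          ≤ ((R : ℝ) ^ (2 * Q)) ^ (-δ) * (((CC Q R).card : ℝ) / 16) :=
            mul_le_mul_of_nonneg_left k5 k4
        _ = _ := by ring
    have k6 : (R : ℝ) ^ (2 * Q - 1) * ((R : ℝ) ^ (2 * Q)) ^ (-r) ≤
        ((CC Q R).card : ℝ) * ((R : ℝ) ^ (2 * Q)) ^ (-δ) / 2 := by
      have k7 : (0 : ℝ) ≤ (R : ℝ) ^ (2 * Q - 1) := by positivity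
      have k8 : 0 ≤ ((R : ℝ) ^ (2 * Q)) ^ (-δ) := Real.rpow_nonneg hXpos.le _
      calc (R : ℝ) ^ (2 * Q - 1) * ((R : ℝ) ^ (2 * Q)) ^ (-r)
          ≤ (R : ℝ) ^ (2 * Q - 1) * ((R : ℝ) ^ (2 * Q)) ^ (-δ) :=
            mul_le_mul_of_nonneg_left hdelta k7
        _ ≤ (((CC Q R).card : ℝ) / 2) * ((R : ℝ) ^ (2 * Q)) ^ (-δ) :=
            mul_le_mul_of_nonneg_right (by linarith) k8
        _ = _ := by ring
    have k9 := abs_sub (Amp Q N R δ) (AS c y)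
    have k10 : 0 ≤ ((CC Q R).card : ℝ) * ((R : ℝ) ^ (2 * Q)) ^ (-δ) :=
      mul_nonneg (Nat.cast_nonneg _) (Real.rpow_nonneg hXpos.le _)
    linarith
  have hbd2 : ((CC Q R).card : ℝ) * ((R : ℝ) ^ (2 * Q)) ^ (-δ) ≤
      (R : ℝ) ^ (2 * Q - 1) * ((R : ℝ) ^ (2 * Q)) ^ (-δ₁) := by
    have k1 := hRd R (by omega)
    have k2 : 0 ≤ ((R : ℝ) ^ (2 * Q)) ^ (-δ) := Real.rpow_nonneg hXpos.le _
    have k3 : (0 : ℝ) ≤ (R : ℝ) ^ (2 * Q - 1) := by positivity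
    calc ((CC Q R).card : ℝ) * ((R : ℝ) ^ (2 * Q)) ^ (-δ)
        ≤ ((2 * Q * 2 ^ (2 * Q - 1) : ℝ) * (R : ℝ) ^ (2 * Q - 1)) *
          ((R : ℝ) ^ (2 * Q)) ^ (-δ) := mul_le_mul_of_nonneg_right hcu k2
      _ = (R : ℝ) ^ (2 * Q - 1) * ((2 * Q * 2 ^ (2 * Q - 1) : ℝ) *
          ((R : ℝ) ^ (2 * Q)) ^ (-δ)) := by ring
      _ ≤ _ := mul_le_mul_of_nonneg_left k1 k3
  obtain ⟨E, hE⟩ : ∃ E : ℕ → ℝ, E = fun j => if R < j ∧ j ≤ J1 then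
      Amp Q N R δ - AS c ((j ^ (2 * Q) : ℕ) : ℝ) else 0 := ⟨_, rfl⟩
  have hEin : ∀ j, R < j → j ≤ J1 → E j = Amp Q N R δ - AS c ((j ^ (2 * Q) : ℕ) : ℝ) := by
    intro j k1 k2
    rw [hE]
    exact if_pos ⟨k1, k2⟩
  have hEout : ∀ j, j ≤ R ∨ J1 < j → E j = 0 := by
    intro j k1
    rw [hE]
    apply if_neg
    omega
  have hrange : ∀ j, R ≤ j → j ≤ J1 + 1 → (R : ℝ) ^ (2 * Q) ≤ ((j ^ (2 * Q) : ℕ) : ℝ) ∧
      ((j ^ (2 * Q) : ℕ) : ℝ) ≤ 2 * (R : ℝ) ^ (2 * Q) := by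
    intro j k1 k2
    constructor
    · have : R ^ (2 * Q) ≤ j ^ (2 * Q) := Nat.pow_le_pow_left k1 _
      exact_mod_cast this
    · have : j ^ (2 * Q) ≤ (J1 + 1) ^ (2 * Q) := Nat.pow_le_pow_left k2 _
      have k3 : j ^ (2 * Q) ≤ 2 * R ^ (2 * Q) := this.trans hJ2
      exact_mod_cast k3
  have hEb : ∀ j, |E j| ≤ ((CC Q R).card : ℝ) * ((R : ℝ) ^ (2 * Q)) ^ (-δ) := by
    intro j
    by_cases hj : R < j ∧ j ≤ J1
    · rw [hEin j hj.1 hj.2]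
      obtain ⟨k1, k2⟩ := hrange j (by omega) (by omega)
      exact hbd1 _ k1 k2
    · rw [hEout j (by omega), abs_zero]
      exact mul_nonneg (Nat.cast_nonneg _) (Real.rpow_nonneg hXpos.le _)
  have hzero : |(0 : ℝ)| ≤ ((CC Q R).card : ℝ) * ((R : ℝ) ^ (2 * Q)) ^ (-δ) := by
    rw [abs_zero]
    exact mul_nonneg (Nat.cast_nonneg _) (Real.rpow_nonneg hXpos.le _)
  have hS : ∀ J : ℕ, ∃ sJ : ℕ → ℝ,
      (∀ n, sJ n ≠ 0 → n.Prime ∧ n ∈ CC Q J ∧ R ≤ J ∧ J ≤ J1) ∧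
      (∀ n, |sJ n| ≤ ((R : ℝ) ^ (2 * Q)) ^ (-δ₁)) ∧
      ∑ n ∈ CC Q J, sJ n = E (J + 1) - E J ∧
      (∀ P : Polynomial ℝ, P.natDegree < 4 * Q + 4 →
        ∑ p ∈ CC Q J, sJ p * (vv Q j₀ p) ^ 2 * P.eval (vv Q j₀ p) =
        E (J + 1) * (UU j₀ (J + 1)) ^ 2 * P.eval (UU j₀ (J + 1)) -
          E J * (UU j₀ J) ^ 2 * P.eval (UU j₀ J)) ∧
      (R < J → J < J1 → ∀ x : ℝ, (J : ℝ) ^ (2 * Q) ≤ x → x ≤ ((J : ℝ) + 1) ^ (2 * Q) →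
        (x ∈ nrJ J → |AS c x + (E J + ∑ n ∈ (CC Q J).filter (fun n : ℕ => (n : ℝ) ≤ x), sJ n)| ≤
          ((R : ℝ) ^ (2 * Q)) ^ (46 / 100 : ℝ)) ∧
        (x ∉ nrJ J → ((R : ℝ) ^ (2 * Q)) ^ (3 / 10 : ℝ) ≤
          ωJ J x * (AS c x + (E J + ∑ n ∈ (CC Q J).filter (fun n : ℕ => (n : ℝ) ≤ x), sJ n)))) := by
    intro J
    rcases lt_or_ge J R with hJ | hJ
    · refine ⟨fun _ => 0, fun n hn => absurd rfl hn, fun n => ?_, ?_, ?_, fun k1 => ?_⟩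
      · rw [abs_zero]; exact Real.rpow_nonneg hXpos.le _
      · rw [hEout J (by omega), hEout (J + 1) (by omega)]
        simp
      · intro P _
        rw [hEout J (by omega), hEout (J + 1) (by omega)]
        simp
      · omega
    rcases lt_or_ge J1 J with hJ' | hJ'
    · refine ⟨fun _ => 0, fun n hn => absurd rfl hn, fun n => ?_, ?_, ?_, fun k1 k2 => ?_⟩
      · rw [abs_zero]; exact Real.rpow_nonneg hXpos.le _
      · rw [hEout J (by omega), hEout (J + 1) (by omega)]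
        simp
      · intro P _
        rw [hEout J (by omega), hEout (J + 1) (by omega)]
        simp
      · omega
    have hcell : (J + 1) ^ (2 * Q) ≤ 2 * R ^ (2 * Q) :=
      (Nat.pow_le_pow_left (by omega) _).trans hJ2
    rcases Nat.eq_or_lt_of_le hJ with hJR | hJR
    · -- the first cell
      obtain ⟨sJ, s1, s2, s3, s4⟩ := hRb R (by omega) J hJ hcell j₀ (by omega) (by omega)
        (E J) (E (J + 1)) (hEb J) (hEb (J + 1))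
      exact ⟨sJ, fun n hn => ⟨(s1 n hn).1, (s1 n hn).2, hJ, hJ'⟩, s2, s3, s4,
        fun k1 => absurd k1 (by omega)⟩
    rcases Nat.eq_or_lt_of_le hJ' with hJR' | hJR'
    · obtain ⟨sJ, s1, s2, s3, s4⟩ := hRb R (by omega) J hJ hcell j₀ (by omega) (by omega)
        (E J) (E (J + 1)) (hEb J) (hEb (J + 1))
      exact ⟨sJ, fun n hn => ⟨(s1 n hn).1, (s1 n hn).2, hJ, hJ'⟩, s2, s3, s4,
        fun k1 k2 => absurd k2 (by omega)⟩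
    · have e1 : ∀ n ∈ CC Q J, |c n| ≤ ((R : ℝ) ^ (2 * Q)) ^ (-r) := by
        intro n hn
        rw [mem_CC] at hn
        have k1 : R ^ (2 * Q) ≤ J ^ (2 * Q) := Nat.pow_le_pow_left hJ _
        exact hc1 n (by omega) (by omega)
      have e2 : ∀ x : ℝ, (J : ℝ) ^ (2 * Q) ≤ x → x ≤ ((J : ℝ) + 1) ^ (2 * Q) →
          |AS c x| ≤ (R : ℝ) ^ (2 * Q - 1) * ((R : ℝ) ^ (2 * Q)) ^ (-r) := by
        intro x k1 k2
        have k3 := (hrange J hJ (by omega)).1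
        have k4 := (hrange (J + 1) (by omega) (by omega)).2
        push_cast at k3 k4
        exact hc2 x (k3.trans k1) (k2.trans k4)
      obtain ⟨sJ, s1, s2, s3, s4, s5⟩ := hmain J hJ hcell j₀ (by omega) (by omega) c e1 e2
      rw [← hEin J hJR hJ', ← hEin (J + 1) (by omega) (by omega)] at s3
      refine ⟨sJ, fun n hn => ⟨(s1 n hn).1, (s1 n hn).2, hJ, hJ'⟩, s2, s3, ?_, ?_⟩
      · intro P hP
        have := s4 P hP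
        rwa [← hEin J hJR hJ', ← hEin (J + 1) (by omega) (by omega)] at this
      · intro _ _ x k1 k2
        have := s5 x k1 k2
        rw [← hEin J hJR hJ'] at this
        simp only [add_assoc] at this
        exact this
  choose S hS1 hS2 hS3 hS4 hS5 using hS
  obtain ⟨s, g1, g2, g3, g4, g5⟩ := glueS Q hQ j₀ S E (hEout 0 (by omega))
    (fun J n hn => (hS1 J n hn).2.1) hS3 hS4
  refine ⟨s, ?_, ?_, ?_, ?_, g4, ?_⟩
  · intro n hn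
    rcases g2 n with k1 | ⟨J, k1, k2⟩
    · exact absurd k1 hn
    · rw [k2] at hn
      obtain ⟨p1, p2, p3, p4⟩ := hS1 J n hn
      rw [mem_CC] at p2
      have k3 : R ^ (2 * Q) ≤ J ^ (2 * Q) := Nat.pow_le_pow_left p3 _
      have k4 : (J + 1) ^ (2 * Q) ≤ (J1 + 1) ^ (2 * Q) := Nat.pow_le_pow_left (by omega) _
      exact ⟨p1, by omega, by omega⟩
  · intro n
    rcases g2 n with k1 | ⟨J, k1, k2⟩
    · rw [k1, abs_zero]
      exact Real.rpow_nonneg hXpos.le _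
    · rw [k2]
      exact hS2 J n
  · intro j
    rw [g3 j, abs_mul, abs_of_nonneg (sq_nonneg (UU j₀ j))]
    exact mul_le_mul_of_nonneg_right ((hEb j).trans hbd2) (sq_nonneg _)
  · intro j hj
    rw [g3 j]
    have : J1 < j := by
      by_contra hc
      have k4 : (j + 1) ^ (2 * Q) ≤ (J1 + 1) ^ (2 * Q) := Nat.pow_le_pow_left (by omega) _
      omega
    rw [hEout j (Or.inr this), zero_mul]
  · intro x hx1 hx2
    have hx0 : 0 ≤ x := le_trans (by positivity) hx1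
    obtain ⟨k1, k2⟩ := hJJ x hx0
    have n1 : R < JJ x := by
      by_contra hc
      have : ((JJ x : ℝ) + 1) ^ (2 * Q) ≤ ((R : ℝ) + 1) ^ (2 * Q) := by
        apply pow_le_pow_left₀ (by positivity)
        have : (JJ x : ℝ) ≤ R := by exact_mod_cast (not_lt.1 hc)
        linarith
      linarith
    have n2 : JJ x < J1 := by
      by_contra hc
      have m1 : (J1 : ℝ) ^ (2 * Q) ≤ (JJ x : ℝ) ^ (2 * Q) := by
        apply pow_le_pow_left₀ (by positivity)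
        exact_mod_cast (not_lt.1 hc)
      have m2 : 6 * (R : ℝ) ^ (2 * Q) < 4 * (J1 : ℝ) ^ (2 * Q) := by
        have : 6 * R ^ (2 * Q) < 4 * J1 ^ (2 * Q) := by omega
        exact_mod_cast this
      linarith
    have k3 := hS5 (JJ x) n1 n2 x k1 k2.le
    rw [g5 (JJ x) x k1 k2]
    exact k3

end Pool.Agent.W762.LV
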